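import Mathlib
import Pool.Agent.Y827.IX.Sel
import Pool.Agent.Y827.RO.NinE
import Pool.Agent.W25.TF.Fin

/-! Project ST: differences `p_(i+s) - p_i` with exactly `s` steps. -/

set_option autoImplicit false
open Filter Topology Finset

namespace Pool.Agent.Y827.ST

open Pool.Agent.Y827.RO Pool.Agent.Y827.IX Pool.Agent.H947R3.GM Pool.Agent.W142.TF

open Classical in
/-- the blocks of `s + 1` consecutive primes of length `D`, the first one `a` modulo `q` -/
def BlkS (s q a D : ℕ) : Prop := ∃ B : Finset ℕ, 0 ∈ B ∧ D ∈ B ∧ (∀ t ∈ B, t ≤ D) ∧ (∀ t ∈ B, q ∣ t) ∧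
  B.card = s + 1 ∧ Nar (fun n => n ≡ a [MOD q] ∧ ∀ t ≤ D, ((n + t).Prime ↔ t ∈ B))

open Classical in
theorem blkS_of {n K N a Q r M s : ℕ} (H : Fin n → Fin K → ℕ) (hN : 0 < N)
    (hHinj : ∀ (g g' : Fin n) (i i' : Fin K), H g i = H g' i' → g = g' ∧ i = i') (hQ : 0 < Q)
    (hNQ : N ∣ Q) (hr : r ≡ a [MOD N]) (hM : ∀ g i, N * H g i ≤ M)
    {E : Finset (Fin n × Fin K)} (hnar : Nar (fun m => (∀ g i, (Q * m + r + N * H g i).Prime ↔ (g, i) ∈ E) ∧
        ∀ t ≤ M, (∀ g i, N * H g i ≠ t) → ¬ (Q * m + r + t).Prime))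
    {g g' : Fin n} {i i' : Fin K} (hlt : H g i < H g' i') (h1 : (g, i) ∈ E) (h2 : (g', i') ∈ E)
    (hs : (E.filter (fun x => H g i ≤ H x.1 x.2 ∧ H x.1 x.2 ≤ H g' i')).card = s + 1) :
    BlkS s N a (N * (H g' i' - H g i)) := by
  have hle : N * H g i ≤ N * H g' i' := Nat.mul_le_mul_left _ hlt.le
  set b₀ : ℕ := N * H g i with hb₀
  set D : ℕ := N * (H g' i' - H g i) with hD
  have hDe : b₀ + D = N * H g' i' := by
    rw [hD, hb₀, Nat.mul_sub]
    omega
  have hDs : N * H g' i' - b₀ = D := by rw [← hDe, Nat.add_sub_cancel_left]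
  set E' : Finset (Fin n × Fin K) := E.filter (fun x => b₀ ≤ N * H x.1 x.2 ∧
    N * H x.1 x.2 ≤ b₀ + D) with hE'
  have hE'c : E'.card = s + 1 := by
    rw [← hs, hE']
    congr 1
    apply filter_congr
    intro x _
    rw [hDe, hb₀, Nat.mul_le_mul_left_iff hN, Nat.mul_le_mul_left_iff hN]
  refine ⟨E'.image (fun x => N * H x.1 x.2 - b₀), ?_, ?_, ?_, ?_, ?_, ?_⟩
  · refine mem_image.2 ⟨(g, i), mem_filter.2 ⟨h1, le_rfl, Nat.le_add_right _ _⟩, ?_⟩
    show N * H g i - b₀ = 0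
    rw [← hb₀, Nat.sub_self]
  · refine mem_image.2 ⟨(g', i'), mem_filter.2 ⟨h2, hle, by rw [hDe]⟩, ?_⟩
    exact hDs
  · intro t ht
    obtain ⟨x, hx, rfl⟩ := mem_image.1 ht
    have := (mem_filter.1 hx).2
    omega
  · intro t ht
    obtain ⟨x, hx, rfl⟩ := mem_image.1 ht
    rw [hb₀, ← Nat.mul_sub]
    exact Dvd.intro _ rfl
  · rw [← hE'c]
    apply card_image_of_injOn
    intro x hx y hy hxy
    have hx' := (mem_filter.1 (mem_coe.1 hx)).2
    have hy' := (mem_filter.1 (mem_coe.1 hy)).2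
    have hxy' : N * H x.1 x.2 - b₀ = N * H y.1 y.2 - b₀ := hxy
    have h3 : N * H x.1 x.2 = N * H y.1 y.2 := by omega
    have h4 := Nat.eq_of_mul_eq_mul_left hN h3
    have h5 := hHinj _ _ _ _ h4
    exact Prod.ext h5.1 h5.2
  · refine Nar.affine (q := Q) (b := r + b₀) hQ (hnar.mono ?_)
    rintro m ⟨hm1, hm2⟩
    refine ⟨?_, fun t ht => ?_⟩
    · have h4 : Q * m ≡ 0 [MOD N] := (Nat.modEq_zero_iff_dvd).2 (hNQ.mul_right m)
      have h5 : b₀ ≡ 0 [MOD N] := (Nat.modEq_zero_iff_dvd).2 (Dvd.intro _ rfl)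
      have h6 := h4.add (hr.add h5)
      simpa using h6
    · have e1 : Q * m + (r + b₀) + t = Q * m + r + (b₀ + t) := by ring
      rw [e1]
      constructor
      · intro hp
        by_contra hnot
        apply hm2 (b₀ + t) (by have := hM g' i'; omega) _ hp
        intro g₁ i₁ he
        apply hnot
        refine mem_image.2 ⟨(g₁, i₁), mem_filter.2 ⟨?_, ?_, ?_⟩, ?_⟩
        · rw [← hm1 g₁ i₁, he]; exact hp
        · show b₀ ≤ N * H g₁ i₁
          omega
        · show N * H g₁ i₁ ≤ b₀ + D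
          omega
        · show N * H g₁ i₁ - b₀ = t
          omega
      · intro ht'
        obtain ⟨x, hx, hxt⟩ := mem_image.1 ht'
        obtain ⟨hx1, hx2, hx3⟩ := mem_filter.1 hx
        have h3 := (hm1 x.1 x.2).2 hx1
        have h4 : N * H x.1 x.2 = b₀ + t := by omega
        rw [← h4]
        exact h3

/-- the `s`-th element after the last element of `R` -/
theorem step_of (P R : Finset ℕ) (hRP : R ⊆ P) (hR : R.Nonempty) {s : ℕ} (hs : 1 ≤ s)
    (hafter : s ≤ (P.filter (fun y => ∀ x ∈ R, x < y)).card) :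
    ∃ x ∈ R, ∃ y ∈ P, y ∉ R ∧ x < y ∧ (P.filter (fun t => x ≤ t ∧ t ≤ y)).card = s + 1 := by
  classical
  obtain ⟨x, hx, hmax⟩ := exists_max_image R id hR
  have hA : P.filter (fun y => ∀ x ∈ R, x < y) = P.filter (fun y => x < y) := by
    apply filter_congr
    intro y _
    exact ⟨fun h => h x hx, fun h z hz => lt_of_le_of_lt (hmax z hz) h⟩
  rw [hA] at hafter
  obtain ⟨y, hy, hyc⟩ := kth (P.filter (fun y => x < y)) hs hafter
  rw [mem_filter] at hy
  refine ⟨x, hx, y, hy.1, fun h => absurd (hmax y h) (not_le.2 hy.2), hy.2, ?_⟩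
  have h1 : P.filter (fun t => x ≤ t ∧ t ≤ y) = insert x ((P.filter (fun y => x < y)).filter (fun t => t ≤ y)) := by
    ext t
    rw [mem_filter, mem_insert, mem_filter, mem_filter]
    constructor
    · rintro ⟨h2, h3, h4⟩
      rcases h3.eq_or_lt with h5 | h5
      · exact Or.inl h5.symm
      · exact Or.inr ⟨⟨h2, h5⟩, h4⟩
    · rintro (h2 | ⟨⟨h2, h3⟩, h4⟩)
      · rw [h2]
        exact ⟨hRP hx, le_rfl, hy.2.le⟩
      · exact ⟨h2, h3.le, h4⟩
  rw [h1, card_insert_of_notMem, hyc]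
  rw [mem_filter, mem_filter]
  intro h
  exact lt_irrefl _ h.1.2

theorem stepG (q a s : ℕ) (hq : 0 < q) (ha : a.Coprime q) (hs : 1 ≤ s) :
    ∃ K : ℕ, 1 ≤ K ∧ ∀ H : Fin 4 → Fin K → ℕ, AdmN q H →
      ∃ g g' i i', g ≠ g' ∧ H g i < H g' i' ∧ H g' i' - H g i ∈ {D : ℕ | BlkS s q a (q * D)} := by
  classical
  obtain ⟨m, hm⟩ : ∃ m, m = 36 * s + 1 := ⟨_, rfl⟩
  obtain ⟨M', hM'⟩ : ∃ M', M' = m + 4 * s := ⟨_, rfl⟩
  have hm1 : 1 ≤ m := by omega
  have hM'n : (18 / 5 : ℝ) * M' < (4 * m : ℕ) := by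
    have h1 : 18 * M' < 5 * (4 * m) := by omega
    have h2 : ((18 * M' : ℕ) : ℝ) < ((5 * (4 * m) : ℕ) : ℝ) := by exact_mod_cast h1
    push_cast at h2 ⊢
    linarith
  obtain ⟨K, hK, hQ⟩ := blockE (4 * m) M' (by omega) hM'n
  have hmK1 : 1 ≤ m * K := Nat.mul_pos hm1 hK
  refine ⟨4 * (m * K), by omega, fun H₀ hadm₀ => ?_⟩
  -- an order-separated selection
  let f : ℕ → ℕ → ℤ := fun g i => if h : g < 4 ∧ i < 4 * (m * K) then (H₀ ⟨g, h.1⟩ ⟨i, h.2⟩ : ℤ) else -(i : ℤ) - 1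
  have hf : ∀ (g : Fin 4) (i : ℕ) (hi : i < 4 * (m * K)), f g i = (H₀ g ⟨i, hi⟩ : ℤ) := by
    intro g i hi
    have : (g : ℕ) < 4 ∧ i < 4 * (m * K) := ⟨g.2, hi⟩
    simp only [f, dif_pos this]
  obtain ⟨σ, hσ1, hσ2, hσ3⟩ := select_sep 4 (m * K) hmK1 f (fun g => by
    intro x hx y hy hxy
    have hx' : x < 4 * (m * K) := hx
    have hy' : y < 4 * (m * K) := hy
    by_cases hg : g < 4
    · have h1 := hf ⟨g, hg⟩ x hx'
      have h2 := hf ⟨g, hg⟩ y hy'
      simp only at h1 h2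
      rw [h1, h2] at hxy
      have h3 : (fun x : Fin 4 × Fin (4 * (m * K)) => H₀ x.1 x.2) (⟨g, hg⟩, ⟨x, hx'⟩) =
          (fun x : Fin 4 × Fin (4 * (m * K)) => H₀ x.1 x.2) (⟨g, hg⟩, ⟨y, hy'⟩) := by
        show H₀ _ _ = H₀ _ _
        exact_mod_cast hxy
      have h4 := hadm₀.1 h3
      have h5 := congrArg Prod.snd h4
      exact congrArg Fin.val h5
    · have h1 : ¬ (g < 4 ∧ x < 4 * (m * K)) := fun h => hg h.1
      have h2 : ¬ (g < 4 ∧ y < 4 * (m * K)) := fun h => hg h.1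
      simp only [f, dif_neg h1, dif_neg h2] at hxy
      omega)
  let H : Fin 4 → Fin (m * K) → ℕ := fun g i => H₀ g ⟨σ g i, hσ1 g g.2 i i.2⟩
  have hHf : ∀ g i, (H g i : ℤ) = f g (σ g i) := fun g i => (hf g _ (hσ1 g g.2 i i.2)).symm
  have hsep : ∀ g g', g ≠ g' → (∀ i i', H g i < H g' i') ∨ (∀ i i', H g' i' < H g i) := by
    intro g g' hne
    rcases hσ3 g g.2 g' g'.2 (fun h => hne (Fin.ext h)) with h | h
    · refine Or.inl fun i i' => ?_
      have := h i i.2 i' i'.2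
      rw [← hHf, ← hHf] at this
      exact_mod_cast this
    · refine Or.inr fun i i' => ?_
      have := h i i.2 i' i'.2
      rw [← hHf, ← hHf] at this
      exact_mod_cast this
  have hHinj : ∀ g i i', H g i = H g i' → i = i' := by
    intro g i i' h
    apply Fin.ext
    apply hσ2 g g.2 i i.2 i' i'.2
    rw [← hHf, ← hHf, h]
  have hadmH : ∀ p : ℕ, p.Prime → ¬ p ∣ q → ∃ n : ℤ, ∀ g i, ¬ ((p : ℤ) ∣ n + H g i) := by
    intro p hp hpq
    obtain ⟨n, hn⟩ := hadm₀.2 p hp hpq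
    exact ⟨n, fun g i => hn g _⟩
  -- the subclasses
  let cl : Fin (4 * m) → Fin 4 := fun c => (finProdFinEquiv.symm c).1
  let H' : Fin (4 * m) → Fin K → ℕ := fun c j => H (cl c) (finProdFinEquiv ((finProdFinEquiv.symm c).2, j))
  have hH'e : ∀ c c' j j', H' c j = H' c' j' → c = c' ∧ j = j' := by
    intro c c' j j' h
    have h1 : cl c = cl c' := by
      by_contra hne
      rcases hsep _ _ hne with h2 | h2
      · exact absurd h (h2 _ _).ne
      · exact absurd h (h2 _ _).ne'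
    have h2 : (finProdFinEquiv ((finProdFinEquiv.symm c).2, j) : Fin (m * K)) =
        finProdFinEquiv ((finProdFinEquiv.symm c').2, j') := by
      apply hHinj (cl c)
      have h3 : H (cl c) (finProdFinEquiv ((finProdFinEquiv.symm c).2, j)) =
          H (cl c') (finProdFinEquiv ((finProdFinEquiv.symm c').2, j')) := h
      rw [← h1] at h3
      exact h3
    have h3 := finProdFinEquiv.injective h2
    rw [Prod.mk.injEq] at h3
    refine ⟨finProdFinEquiv.symm.injective (Prod.ext h1 h3.1), h3.2⟩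
  have hadm : AdmN q H' := by
    refine ⟨fun x y h => ?_, fun p hp hpq => ?_⟩
    · have := hH'e _ _ _ _ h
      exact Prod.ext this.1 this.2
    · obtain ⟨n, hn⟩ := hadmH p hp hpq
      exact ⟨n, fun g i => hn _ _⟩
  obtain ⟨Q, r₀, M, E, hQ0, hNQ, hr, hM, hE, hnar⟩ := hQ q a hq ha H' hadm
  set P : Finset ℕ := E.image (fun x => H' x.1 x.2) with hP
  let R : Fin 4 → Finset ℕ := fun g => (E.filter (fun x => cl x.1 = g)).image (fun x => H' x.1 x.2)
  have hRP : ∀ g, R g ⊆ P := fun g => image_subset_image (filter_subset _ _)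
  have hRH : ∀ g, ∀ t ∈ R g, ∃ i, H g i = t := by
    intro g t ht
    obtain ⟨x, hx, rfl⟩ := mem_image.1 ht
    obtain ⟨_, rfl⟩ := mem_filter.1 hx
    exact ⟨_, rfl⟩
  have hPR : ∀ t ∈ P, ∃ g, t ∈ R g := by
    intro t ht
    obtain ⟨x, hx, rfl⟩ := mem_image.1 ht
    exact ⟨cl x.1, mem_image.2 ⟨x, mem_filter.2 ⟨hx, rfl⟩, rfl⟩⟩
  -- the number of elements of a cluster
  have hRc : ∀ g, ((E.image Prod.fst).filter (fun c => cl c = g)).card ≤ (R g).card := by
    intro g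
    have h1 : ((E.image Prod.fst).filter (fun c => cl c = g)).card ≤ (E.filter (fun x => cl x.1 = g)).card := by
      have h2 : (E.image Prod.fst).filter (fun c => cl c = g) ⊆ (E.filter (fun x => cl x.1 = g)).image Prod.fst := by
        intro c hc
        obtain ⟨h3, h4⟩ := mem_filter.1 hc
        obtain ⟨x, hx, rfl⟩ := mem_image.1 h3
        exact mem_image.2 ⟨x, mem_filter.2 ⟨hx, h4⟩, rfl⟩
      exact (card_le_card h2).trans card_image_le
    refine h1.trans (le_of_eq ?_)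
    symm
    apply card_image_of_injective
    intro x y h
    have := hH'e _ _ _ _ h
    exact Prod.ext this.1 this.2
  have hclm : ∀ g, ((E.image Prod.fst).filter (fun c => cl c = g)).card ≤ m := by
    intro g
    have h1 : ((E.image Prod.fst).filter (fun c => cl c = g)).card ≤ (univ : Finset (Fin m)).card := by
      refine card_le_card_of_injOn (fun c => (finProdFinEquiv.symm c).2) (fun _ _ => mem_coe.2 (mem_univ _)) ?_
      intro x hx y hy h
      rw [mem_coe, mem_filter] at hx hy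
      apply finProdFinEquiv.symm.injective
      exact Prod.ext (hx.2.trans hy.2.symm) h
    rwa [card_univ, Fintype.card_fin] at h1
  set S : Finset (Fin 4) := univ.filter (fun g => s ≤ ((E.image Prod.fst).filter (fun c => cl c = g)).card) with hS
  have hS1 : M' + 1 ≤ S.card * m + 4 * s := by
    refine hE.trans ?_
    rw [card_eq_sum_card_fiberwise (f := cl) (t := univ) (fun _ _ => mem_coe.2 (mem_univ _))]
    rw [← sum_filter_add_sum_filter_not univ (fun g => s ≤ ((E.image Prod.fst).filter (fun c => cl c = g)).card)]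
    apply Nat.add_le_add
    · refine (sum_le_card_nsmul _ _ m fun g _ => hclm g).trans (le_of_eq ?_)
      rw [smul_eq_mul]
    · refine (sum_le_card_nsmul _ _ s fun g hg => ?_).trans ?_
      · exact (not_le.1 (mem_filter.1 hg).2).le
      · rw [smul_eq_mul]
        apply Nat.mul_le_mul_right
        refine (card_filter_le _ _).trans (le_of_eq ?_)
        rw [card_univ, Fintype.card_fin]
  have hS2 : 1 < S.card := by
    by_contra hcon
    push Not at hcon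
    have : S.card * m ≤ 1 * m := Nat.mul_le_mul_right _ hcon
    omega
  obtain ⟨g₁, hg₁, g₂, hg₂, hne⟩ := one_lt_card.1 hS2
  -- the order of the two
  obtain ⟨g, g', hg, hg', hlt⟩ : ∃ g g', g ∈ S ∧ g' ∈ S ∧ ∀ i i', H g i < H g' i' := by
    rcases hsep g₁ g₂ hne with h | h
    · exact ⟨g₁, g₂, hg₁, hg₂, h⟩
    · exact ⟨g₂, g₁, hg₂, hg₁, fun i i' => h i' i⟩
  have hRg : s ≤ (R g).card := (mem_filter.1 hg).2.trans (hRc g)
  have hRg' : s ≤ (R g').card := (mem_filter.1 hg').2.trans (hRc g')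
  obtain ⟨x, hx, y, hy, hyR, hxy, hcard⟩ := step_of P (R g) (hRP g) (card_pos.1 (by omega)) hs (by
    refine hRg'.trans (card_le_card ?_)
    intro t ht
    rw [mem_filter]
    refine ⟨hRP g' ht, fun z hz => ?_⟩
    obtain ⟨i, rfl⟩ := hRH g z hz
    obtain ⟨i', rfl⟩ := hRH g' t ht
    exact hlt _ _)
  -- back to the classes
  obtain ⟨e, he, rfl⟩ := mem_image.1 hx
  obtain ⟨e', he', rfl⟩ := mem_image.1 hy
  obtain ⟨heE, hecl⟩ := mem_filter.1 he
  have hcl' : cl e'.1 ≠ g := by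
    intro h
    exact hyR (mem_image.2 ⟨e', mem_filter.2 ⟨he', h⟩, rfl⟩)
  refine ⟨cl e.1, cl e'.1, ⟨_, hσ1 (cl e.1) (cl e.1).2 _ (finProdFinEquiv ((finProdFinEquiv.symm e.1).2, e.2)).2⟩,
    ⟨_, hσ1 (cl e'.1) (cl e'.1).2 _ (finProdFinEquiv ((finProdFinEquiv.symm e'.1).2, e'.2)).2⟩,
    fun h => hcl' (by rw [← h, hecl]), hxy, ?_⟩
  have hc' : (E.filter (fun x => H' e.1 e.2 ≤ H' x.1 x.2 ∧ H' x.1 x.2 ≤ H' e'.1 e'.2)).card = s + 1 := by
    rw [← hcard, hP]
    symm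
    have h1 : (E.image (fun x => H' x.1 x.2)).filter (fun t => H' e.1 e.2 ≤ t ∧ t ≤ H' e'.1 e'.2) =
        (E.filter (fun x => H' e.1 e.2 ≤ H' x.1 x.2 ∧ H' x.1 x.2 ≤ H' e'.1 e'.2)).image (fun x => H' x.1 x.2) := by
      ext t
      rw [mem_filter, mem_image, mem_image]
      constructor
      · rintro ⟨⟨x, hx, rfl⟩, h⟩
        exact ⟨x, mem_filter.2 ⟨hx, h⟩, rfl⟩
      · rintro ⟨x, hx, rfl⟩
        exact ⟨⟨x, (mem_filter.1 hx).1, rfl⟩, (mem_filter.1 hx).2⟩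
    rw [h1]
    apply card_image_of_injective
    intro x y h
    have := hH'e _ _ _ _ h
    exact Prod.ext this.1 this.2
  exact blkS_of H' hq hH'e hQ0 hNQ hr hM hnar hxy heE he' hc'

theorem stepWin (s : ℕ) (hs : 1 ≤ s) (q a : ℕ) (hq : 0 < q) (ha : a.Coprime q) (ε : ℝ) (hε : 0 < ε) :
    ∃ M : ℕ, 0 < M ∧ ∀ N : ℕ, 0 < N → M ∣ N → ∃ L : ℕ, ∀ T : ℕ, L ≤ T → ∀ u : ℕ,
      (1 / 2 - ε) * T ≤ ({k : ℕ | u < k ∧ k ≤ u + T ∧ BlkS s q a (N * k)}.ncard : ℝ) := by
  obtain ⟨M, hM, h⟩ := Pool.Agent.W25.TF.tf4 Pool.Agent.W25.TF.s_maiF4 {D : ℕ | BlkS s q a (q * D)} q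
    (stepG q a s hq ha hs) ε hε
  refine ⟨q * M, Nat.mul_pos hq hM, fun N hN hd => ?_⟩
  obtain ⟨t, rfl⟩ := hd
  have ht : 0 < t := Nat.pos_of_ne_zero (by rintro rfl; simp at hN)
  obtain ⟨L, hL⟩ := h (M * t) (Nat.mul_pos hM ht) (Dvd.intro _ rfl)
  refine ⟨L, fun T hT u => (hL T hT u).trans (le_of_eq ?_)⟩
  congr 2
  ext k
  simp only [Set.mem_setOf_eq]
  have e : q * M * t * k = q * (M * t * k) := by ring
  rw [e]

end Pool.Agent.Y827.ST
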